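import Pool.Agent.Lib.MP_6f4751_nt.Sum

/-! Weighted sums of squares of `R n r` modulo `n`. -/

set_option autoImplicit false

namespace Pool.Agent.Variants.MP_6f4751_nt.DoubleFactorial

/-- `R n r = ∑_{k=0}^{n} C(n+k,2k) C(2k,k) / (2k-2r-1)`. -/
def R (n r : ℕ) : ℚ :=
  ∑ k ∈ Finset.range (n + 1),
    ((n + k).choose (2 * k) : ℚ) * ((2 * k).choose k : ℚ) * (1 / (2 * (k : ℚ) - 2 * (r : ℚ) - 1))

/-- `S n r = ∑_{k=0}^{n-1} (2k+1) (R k r)^2`. -/
def S (n r : ℕ) : ℚ := ∑ k ∈ Finset.range n, (2 * (k : ℚ) + 1) * R k r ^ 2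

/-- With the nonzero integer `a = (2r+1)!!^2`, the number `a * S n r / n` is an integer for every `n ≥ 1`;
in particular its denominator is coprime to `n`. -/
theorem result (r : ℕ) :
    ∃ a : ℤ, a ≠ 0 ∧ a = ((Nat.doubleFactorial (2 * r + 1) : ℕ) : ℤ) ^ 2 ∧
      ∀ n : ℕ, 0 < n →
        (∃ z : ℤ, (a : ℚ) * S n r / (n : ℚ) = (z : ℚ)) ∧
          Nat.Coprime ((a : ℚ) * S n r / (n : ℚ)).den n := by
  refine ⟨_, ?_, rfl, fun n hn => ?_⟩
  · have := Nat.doubleFactorial_pos (2 * r + 1)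
    positivity
  · obtain ⟨z, hz⟩ := Pool.Agent.Lib.MP_6f4751_nt.main
      (Pool.Agent.Lib.MP_6f4751_nt.odd_dvd_doubleFactorial r) n
    have hn' : (n : ℚ) ≠ 0 := by positivity
    have e : (((((Nat.doubleFactorial (2 * r + 1) : ℕ) : ℤ) ^ 2 : ℤ) : ℚ)) * S n r / (n : ℚ)
        = (z : ℚ) := by
      rw [div_eq_iff hn', mul_comm (z : ℚ), ← hz]
      push_cast
      congr 1
      refine Finset.sum_congr rfl fun k _ => ?_
      congr 2
      refine Finset.sum_congr rfl fun i _ => ?_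
      simp only [Pool.Agent.Lib.MP_6f4751_nt.PP, Pool.Agent.Lib.MP_6f4751_nt.dd]
      push_cast
      rw [mul_one_div]
      congr 1
      ring
    exact ⟨⟨z, e⟩, by rw [e]; simp⟩

end Pool.Agent.Variants.MP_6f4751_nt.DoubleFactorial
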